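import Mathlib
import Pool.Agent.H.MP_bf7c2b_nt.B

namespace Pool.Agent.Results.MP_bf7c2b_nt.Four

open Polynomial Pool.Agent.H.MP_bf7c2b_nt

theorem result : ∀ ε : ℝ, 0 < ε → ∃ α : ℂ, IsIntegral ℤ α ∧ α ≠ 0 ∧
    2 ≤ (minpoly ℚ α).natDegree ∧
    (((minpoly ℚ α).aroots ℂ).toFinset.filter fun z => z.im = 0).card = 4 ∧
    ∑ z ∈ ((minpoly ℚ α).aroots ℂ).toFinset.filter (fun z => z.im = 0), z.re ^ 2 +
      ∑ z ∈ ((minpoly ℚ α).aroots ℂ).toFinset.filter (fun z => 0 < z.im), ‖z‖ ^ 2 <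
      ((minpoly ℚ α).natDegree : ℝ) * (2 : ℝ) ^ ((4 : ℝ) / (minpoly ℚ α).natDegree - 1) + ε := by
  intro ε hε
  obtain ⟨N1, hN1⟩ := Filter.eventually_atTop.1
    ((tendsto_self_mul_const_pow_of_lt_one (r := 9 / 10) (by norm_num) (by norm_num)).eventually
      (ge_mem_nhds (show (0 : ℝ) < 1 / 20 by norm_num)))
  obtain ⟨N2, hN2⟩ := exists_nat_gt (73 / ε)
  obtain ⟨a, k, hk, ha⟩ : ∃ a k, a = 3 ^ k ∧ N1 + N2 + 6 < a :=
    ⟨_, N1 + N2 + 6, rfl, Nat.lt_pow_self (by norm_num)⟩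
  have ho : Odd a := by rw [hk]; exact Odd.pow (by decide)
  have hi : Irreducible ((P a).map (algebraMap ℤ ℚ)) := by
    rw [hk]; exact P_irr k (by omega)
  have hm := P_monic a (by omega)
  have hm' := hm.map (algebraMap ℤ ℚ)
  have hd : ((P a).map (algebraMap ℤ ℚ)).natDegree = 4 * a := by
    rw [hm.natDegree_map, P_natDegree a (by omega)]
  have ev : ∀ z : ℂ, aeval z (P a) =
      (z ^ a) ^ 4 + z ^ a * (2 * z ^ 2 - 1) + (2 * z ^ 2 - 1) ^ 2 := fun z => by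
    simp only [P, map_add, map_pow, aeval_X, map_mul, map_sub, map_one, map_ofNat]; ring
  have hR : ∀ z, z ∈ (((P a).map (algebraMap ℤ ℚ)).aroots ℂ).toFinset ↔ Rt a z := fun z => by
    rw [Multiset.mem_toFinset, mem_aroots, aeval_map_algebraMap, ev, Rt, and_iff_right hm'.ne_zero]
  have sp := IsAlgClosed.splits (((P a).map (algebraMap ℤ ℚ)).map (algebraMap ℚ ℂ))
  have nd := (nodup_aroots_iff_of_splits hm'.ne_zero sp).2 hi.separable
  have hc : (((P a).map (algebraMap ℤ ℚ)).aroots ℂ).toFinset.card = 4 * a := by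
    rw [Multiset.toFinset_card_of_nodup nd, aroots_def, ← sp.natDegree_eq_card_roots,
      hm'.natDegree_map, hd]
  have hp : ∏ z ∈ (((P a).map (algebraMap ℤ ℚ)).aroots ℂ).toFinset, ‖z‖ = 1 := by
    have h := sp.eval_eq_prod_roots_of_monic (hm'.map _) 0
    rw [eval_map_algebraMap, aeval_map_algebraMap, ev, zero_pow (by omega), ← aroots_def,
      ← nd.dedup, ← Multiset.toFinset_val, ← Finset.prod_eq_multiset_prod] at h
    have := congrArg norm h
    rw [norm_prod] at this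
    simpa using this.symm
  obtain ⟨e1, e2⟩ := est a ho (by omega) (hN1 a (by omega)) _ hR hc hp
  obtain ⟨α, hα⟩ := Finset.card_pos.1 (by rw [hc]; omega :
    0 < (((P a).map (algebraMap ℤ ℚ)).aroots ℂ).toFinset.card)
  have h0 := (hR α).1 hα
  have h1 : aeval α (P a) = 0 := by rw [ev]; exact h0
  have mp : minpoly ℚ α = (P a).map (algebraMap ℤ ℚ) :=
    (minpoly.eq_of_irreducible_of_monic hi (by rwa [aeval_map_algebraMap]) hm').symm
  refine ⟨α, ⟨P a, hm, h1⟩, w_ne a α (by omega) h0, by rw [mp, hd]; omega, by rw [mp, e1], ?_⟩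
  rw [mp, hd]
  refine e2.trans_lt ?_
  have a0 : (N2 : ℝ) < a := by exact_mod_cast (by omega : N2 < a)
  have a1 : (0 : ℝ) < a := by exact_mod_cast (by omega : 0 < a)
  have b1 : 73 / (a : ℝ) < ε := by
    rw [div_lt_iff₀ hε] at hN2; rw [div_lt_iff₀ a1]; nlinarith
  have b2 : ((4 * a : ℕ) : ℝ) * (2 : ℝ) ^ ((4 : ℝ) / (4 * a : ℕ) - 1) =
      2 * a * Real.exp (Real.log 2 / a) := by
    rw [Real.rpow_sub (by norm_num), Real.rpow_one, Real.rpow_def_of_pos (by norm_num)]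
    push_cast
    rw [show Real.log 2 * (4 / (4 * (a : ℝ))) = Real.log 2 / a by field_simp]; ring
  have b3 := mul_le_mul_of_nonneg_left (Real.add_one_le_exp (Real.log 2 / a))
    (show (0 : ℝ) ≤ 2 * a by positivity)
  have b4 : 2 * a * (Real.log 2 / a + 1) = 2 * a + 2 * Real.log 2 := by field_simp; ring
  rw [b2]; linarith

end Pool.Agent.Results.MP_bf7c2b_nt.Four
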